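import Pool.Agent.H16.MatFam

set_option autoImplicit false

namespace Pool.Agent.Results.MP_221c76_co.Family

open Finset Pool.Agent.H16.MatFam
open scoped symmDiff

attribute [local instance] Classical.propDecidable

/-- A graph: arbitrary vertex and edge sets, loops and multiple edges allowed. -/
structure Gr where
  V : Type
  E : Type
  ends : E → Sym2 V

/-- `(f, g)` is an isomorphism of `H` onto a subgraph of `G`. -/
def Emb (H G : Gr) (f : H.V → G.V) (g : H.E → G.E) : Prop :=
  Function.Injective f ∧ Function.Injective g ∧ ∀ e, G.ends (g e) = (H.ends e).map f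

def Iso (H G : Gr) : Prop :=
  ∃ f g, Emb H G f g ∧ Function.Surjective f ∧ Function.Surjective g

/-- The edge sets of the subgraphs of `G` isomorphic to a member of `P`. -/
def Circuits (P : Set Gr) (G : Gr) : Set (Set G.E) :=
  {C | ∃ H ∈ P, ∃ f g, Emb H G f g ∧ Set.range g = C}

def Matroidal (P : Set Gr) : Prop :=
  P.Nonempty ∧ ∀ G : Gr,
    (∀ C ∈ Circuits P G, ∀ C' ∈ Circuits P G, ¬ C ⊂ C') ∧
    (∀ C ∈ Circuits P G, ∀ C' ∈ Circuits P G, C ≠ C' → ∀ e ∈ C ∩ C',
      ∃ D ∈ Circuits P G, D ⊆ (C ∪ C') \ {e})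

/-- The edge `e` with ends `u`, `v` is replaced by the path `u, w, v`, where the new vertex `w` is
`none`, the edge `some e` now joins `u` and `w`, and the new edge `none` joins `w` and `v`. -/
noncomputable abbrev subdiv (G : Gr) (e : G.E) (u v : G.V) : Gr where
  V := Option G.V
  E := Option G.E
  ends
    | none => s(none, some v)
    | some x => if x = e then s(some u, none) else (G.ends x).map some

/-- One subdivision, or passing to an isomorphic copy. -/
def Step (G H : Gr) : Prop :=
  Iso G H ∨ ∃ e u v, G.ends e = s(u, v) ∧ H = subdiv G e u v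

def Homeo (G H : Gr) : Prop :=
  ∃ K, Relation.ReflTransGen Step K G ∧ Relation.ReflTransGen Step K H

noncomputable local instance (priority := high) i1 {α : Type} : DecidableEq (Option α) :=
  fun a b => Classical.propDecidable (a = b)
noncomputable local instance (priority := high) i2 {α β : Type} : DecidableEq (α ⊕ β) :=
  fun a b => Classical.propDecidable (a = b)
noncomputable local instance (priority := high) i3 {α : Type} : DecidableEq (Finset α) :=
  fun a b => Classical.propDecidable (a = b)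

noncomputable def inc {V : Type} (v : V) : Sym2 V → ZMod 2 :=
  Sym2.lift ⟨fun a b => (if a = v then 1 else 0) + (if b = v then 1 else 0),
    fun _ _ => add_comm _ _⟩

lemma inc_mk {V : Type} (v a b : V) :
    inc v s(a, b) = (if a = v then 1 else 0) + (if b = v then 1 else 0) := rfl

lemma inc_map {V W : Type} {f : V → W} (hf : Function.Injective f) (v : V) (z : Sym2 V) :
    inc (f v) (z.map f) = inc v z := by
  induction z using Sym2.ind with
  | _ a b => simp only [Sym2.map_pair_eq, inc_mk, hf.eq_iff]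

lemma inc_map0 {V W : Type} {f : V → W} {w : W} (hw : ∀ v, f v ≠ w) (z : Sym2 V) :
    inc w (z.map f) = 0 := by
  induction z using Sym2.ind with
  | _ a b => simp [inc_mk, hw]

def Ev (G : Gr) (F : Finset G.E) : Prop := ∀ v, ∑ e ∈ F, inc v (G.ends e) = 0

lemma two (z : ZMod 2) : z + z = 0 := by revert z; decide

lemma ev0 (G : Gr) : Ev G ∅ := fun _ => sum_empty

lemma evs (G : Gr) (F D : Finset G.E) (h1 : Ev G F) (h2 : Ev G D) : Ev G (F ∆ D) := fun v => by
  have a := sum_inter_add_sum_sdiff F D fun e => inc v (G.ends e)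
  have b := sum_inter_add_sum_sdiff D F fun e => inc v (G.ends e)
  rw [h1 v] at a
  rw [h2 v, inter_comm] at b
  rw [symmDiff_def, sup_eq_union, sum_union disjoint_sdiff_sdiff]
  linear_combination a + b - two (∑ e ∈ F ∩ D, inc v (G.ends e))

lemma tr_emb {H G : Gr} {f : H.V → G.V} {g : H.E → G.E} (h : Emb H G f g) :
    Tr (Ev H) (Ev G) g (fun F => F.preimage g h.2.1.injOn) ∅ where
  mem _ _ := mem_preimage
  ev F hF := by
    have e : ∀ w, ∑ e ∈ F, inc w (G.ends e) =
        ∑ e ∈ F.preimage g h.2.1.injOn, inc w ((H.ends e).map f) := fun w => by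
      rw [← sum_preimage g F h.2.1.injOn (fun e => inc w (G.ends e))
        fun x hx hc => absurd (hF x hx) hc]
      simp only [h.2.2]
    constructor
    · intro a w
      rw [e]
      by_cases hw : ∃ v, f v = w
      · obtain ⟨v, rfl⟩ := hw
        simp only [inc_map h.1]
        exact a v
      · simp only [inc_map0 (not_exists.1 hw), sum_const_zero]
    · intro a v
      have := a (f v)
      rw [e] at this
      simpa only [inc_map h.1] using this
  sat _ _ _ _ e ha := h.2.1 e ▸ ha
  inj _ _ e _ := h.2.1 e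

noncomputable def Phi {E : Type} (e : E) (F : Finset E) : Finset (Option E) :=
  if e ∈ F then insertNone F else F.map Function.Embedding.some

lemma sum_Phi {E : Type} (e : E) (F : Finset E) (φ : Option E → ZMod 2) :
    ∑ x ∈ Phi e F, φ x = ∑ x ∈ F, (φ (some x) + if x = e then φ none else 0) := by
  rw [sum_add_distrib, sum_ite_eq', Phi]
  split_ifs
  · rw [sum_insertNone, add_comm]
  · rw [sum_map, add_zero]; rfl

lemma tr_sub {G : Gr} {e : G.E} {u v : G.V} (h : G.ends e = s(u, v)) :
    Tr (Ev (subdiv G e u v)) (Ev G) (fun x : Option G.E => x.getD e) (Phi e) {none, some e} where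
  mem F a := by
    unfold Phi
    split_ifs with c <;> cases a <;> simp [c]
  ev F _ := by
    have e1 : ∀ y : G.V, ∑ x ∈ Phi e F, inc (some y) ((subdiv G e u v).ends x) =
        ∑ x ∈ F, inc y (G.ends x) := fun y => by
      rw [sum_Phi]
      refine sum_congr rfl fun x _ => ?_
      by_cases c : x = e
      · subst c
        simp [subdiv, h, inc_mk]
      · simp [subdiv, c, inc_map (Option.some_injective _)]
    have e2 : ∑ x ∈ Phi e F, inc none ((subdiv G e u v).ends x) = 0 := by
      rw [sum_Phi]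
      refine sum_eq_zero fun x _ => ?_
      by_cases c : x = e
      · subst c
        simp [subdiv, inc_mk, two]
      · simp [subdiv, c, inc_map0 (Option.some_ne_none)]
    refine ⟨fun a y => (e1 y).symm.trans (a (some y)), fun a y => ?_⟩
    cases y with
    | none => exact e2
    | some y => exact (e1 y).trans (a y)
  sat F hF := by
    have key : (none : Option G.E) ∈ F ↔ some e ∈ F := by
      have a : ∀ x : Option G.E, inc none ((subdiv G e u v).ends x) =
          (if x = none then 1 else 0) + (if x = some e then 1 else 0) := fun x => by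
        cases x with
        | none => simp [subdiv, inc_mk]
        | some x =>
          by_cases c : x = e
          · simp [subdiv, inc_mk, c]
          · simp [subdiv, c, inc_map0 (Option.some_ne_none)]
      have b : ∑ x ∈ F, inc none ((subdiv G e u v).ends x) = 0 := hF none
      rw [sum_congr rfl fun x _ => a x, sum_add_distrib, sum_ite_eq', sum_ite_eq'] at b
      by_cases c1 : (none : Option G.E) ∈ F <;> by_cases c2 : some e ∈ F <;> simp_all
    rintro (_ | a) (_ | b) c ha
    · exact ha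
    · obtain rfl : e = b := c
      exact key.1 ha
    · obtain rfl : a = e := c
      exact key.2 ha
    · obtain rfl : a = b := c
      exact ha
  inj := by
    rintro (_ | a) (_ | b) c ha
    · rfl
    · simp at ha
    · obtain rfl : a = e := c
      simp at ha
    · exact congrArg some c

def NoIso (G : Gr) : Prop := ∀ v, ∃ e, v ∈ G.ends e

def P : Set Gr := {G | NoIso G ∧ Good (Ev G) Set.univ}

def I (G : Gr) : Set ℕ := {k | k ≠ 0 ∧ Inv (Ev G) Set.univ k}

lemma step {G H : Gr} (h : Step G H) : (G ∈ P ↔ H ∈ P) ∧ I G = I H := by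
  rcases h with ⟨f, g, h, hf, hg⟩ | ⟨e, u, v, h, rfl⟩
  · have t := tr_emb h
    refine ⟨and_congr ⟨fun a w => ?_, fun a w => ?_⟩ ?_, Set.ext fun k => and_congr_right
      fun hk => ?_⟩
    · obtain ⟨w, rfl⟩ := hf w
      obtain ⟨e, he⟩ := a w
      exact ⟨g e, by rw [h.2.2]; exact Sym2.mem_map.2 ⟨w, he, rfl⟩⟩
    · obtain ⟨e, he⟩ := a (f w)
      obtain ⟨e, rfl⟩ := hg e
      rw [h.2.2] at he
      obtain ⟨x, h1, h2⟩ := Sym2.mem_map.1 he
      exact ⟨e, h.1 h2 ▸ h1⟩
    · rw [t.good (evs G) (evs H), hg.range_eq]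
    · rw [t.inv hk, hg.range_eq]
  · have t := tr_sub h
    have r : Set.range (fun x : Option G.E => x.getD e) = Set.univ :=
      Set.range_eq_univ.2 fun x => ⟨some x, rfl⟩
    refine ⟨and_congr ⟨fun a w => ?_, fun a w => ?_⟩ ?_, Set.ext fun k => and_congr_right
      fun hk => ?_⟩
    · cases w with
      | none => exact ⟨none, Sym2.mem_mk_left _ _⟩
      | some w =>
        obtain ⟨x, hx⟩ := a w
        by_cases c : x = e
        · rw [c, h, Sym2.mem_iff] at hx
          rcases hx with rfl | rfl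
          · exact ⟨some e, by simp [subdiv]⟩
          · exact ⟨none, Sym2.mem_mk_right _ _⟩
        · exact ⟨some x, by simp [subdiv, c, hx]⟩
    · obtain ⟨x, hx⟩ := a (some w)
      cases x with
      | none => exact ⟨e, by simp [subdiv] at hx; simp [h, hx]⟩
      | some x =>
        by_cases c : x = e
        · exact ⟨e, by simp [subdiv, c] at hx; simp [h, hx]⟩
        · exact ⟨x, by simpa [subdiv, c] using hx⟩
    · exact (r ▸ t.good (evs _) (evs G)).symm
    · exact (r ▸ t.inv hk).symm

lemma steps {G H : Gr} (h : Relation.ReflTransGen Step G H) : (G ∈ P ↔ H ∈ P) ∧ I G = I H := by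
  induction h with
  | refl => exact ⟨Iff.rfl, rfl⟩
  | tail _ h2 ih => exact ⟨ih.1.trans (step h2).1, ih.2.trans (step h2).2⟩

/-- The subgraph of `G` with edge set `C` and no isolated vertices. -/
abbrev sub (G : Gr) (C : Set G.E) : Gr where
  V := {v // ∃ e ∈ C, v ∈ G.ends e}
  E := C
  ends e := Sym2.pmap (fun v h => ⟨v, h⟩) (G.ends e.1) fun _ h => ⟨e.1, e.2, h⟩

lemma sub_emb (G : Gr) (C : Set G.E) : Emb (sub G C) G Subtype.val Subtype.val :=
  ⟨Subtype.val_injective, Subtype.val_injective, fun e =>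
    (Sym2.pmap_subtype_map_subtypeVal _ _).symm⟩

lemma sub_mem {G : Gr} {C : Set G.E} (h : Good (Ev G) C) : sub G C ∈ P := by
  refine ⟨fun ⟨v, e, h1, h2⟩ => ⟨⟨e, h1⟩, ?_⟩, ?_⟩
  · have := (sub_emb G C).2.2 ⟨e, h1⟩
    rw [show G.ends e = _ from this] at h2
    obtain ⟨x, a, rfl⟩ := Sym2.mem_map.1 h2
    exact a
  · rw [(tr_emb (sub_emb G C)).good (evs _) (evs G)]
    exact Subtype.range_val.symm ▸ h

lemma circ_iff {G : Gr} {C : Set G.E} : C ∈ Circuits P G ↔ Good (Ev G) C := by
  constructor
  · rintro ⟨H, hH, f, g, h, rfl⟩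
    exact ((tr_emb h).good (evs H) (evs G)).1 hH.2
  · exact fun h => ⟨_, sub_mem h, _, _, sub_emb G C, Subtype.range_val⟩

/-- Infinitely many parallel edges together with one cycle of every length. -/
abbrev G0 : Gr where
  V := Bool ⊕ ℕ × ℕ
  E := ℕ ⊕ ℕ × ℕ
  ends
    | .inl _ => s(.inl false, .inl true)
    | .inr p => s(.inr p, .inr (p.1, (p.2 + 1) % p.1))

noncomputable def X0 (N : ℕ) : Finset G0.E := (range (N + 1)).image Sum.inl
noncomputable def Z0 (m : ℕ) : Finset G0.E := (range m).image fun i => Sum.inr (m, i)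
def C0 (N : ℕ) : Set G0.E := {e | e ∈ X0 N ∨ ∃ m, N ≤ m ∧ e ∈ Z0 m}

lemma ev_pair {i j : ℕ} (h : i ≠ j) : Ev G0 {Sum.inl i, Sum.inl j} := fun v => by
  rw [sum_pair fun c => h (Sum.inl_injective c)]
  exact two _

lemma not_ev (i : ℕ) : ¬ Ev G0 {Sum.inl i} := fun h => by
  have := h (Sum.inl false)
  rw [sum_singleton] at this
  simp [G0, inc_mk] at this

lemma mem_X0 {N : ℕ} {e : G0.E} : e ∈ X0 N ↔ ∃ i ≤ N, e = Sum.inl i := by
  simp only [X0, mem_image, mem_range, Nat.lt_succ_iff, eq_comm]

lemma mem_Z0 {m : ℕ} {e : G0.E} : e ∈ Z0 m ↔ ∃ i < m, e = Sum.inr (m, i) := by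
  simp only [Z0, mem_image, mem_range, eq_comm]

lemma cnt_X0 (N : ℕ) : cnt (Ev G0) (X0 N) = 2 ^ N := by
  induction N with
  | zero =>
    have : X0 0 = {Sum.inl 0} := by ext e; rw [mem_X0]; simp
    rw [this, cnt_erase_of_not (e := Sum.inl 0), erase_singleton]
    · simp [cnt, filter_singleton, ev0 G0]
    · rintro ⟨F, h1, h2, h3⟩
      exact not_ev 0 (Subset.antisymm h1 (singleton_subset_iff.2 h3) ▸ h2)
  | succ N ih =>
    rw [cnt_erase (evs G0) (e := Sum.inl (N + 1)) ⟨_, ?_, ev_pair N.succ_ne_zero,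
      mem_insert_self _ _⟩, pow_succ', ← ih]
    · congr 2
      ext e
      rw [mem_erase, mem_X0, mem_X0]
      constructor
      · rintro ⟨a, i, b, rfl⟩
        exact ⟨i, by have : i ≠ N + 1 := fun c => a (by rw [c]); omega, rfl⟩
      · rintro ⟨i, b, rfl⟩
        exact ⟨fun c => by have := Sum.inl_injective c; omega, i, by omega, rfl⟩
    · intro e he
      rw [mem_insert, mem_singleton] at he
      rcases he with rfl | rfl
      exacts [mem_X0.2 ⟨_, le_rfl, rfl⟩, mem_X0.2 ⟨0, by omega, rfl⟩]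

lemma data0 {N : ℕ} (hN : 1 ≤ N) : Data (Ev G0) (C0 N) N (X0 N) Z0 where
  pos := hN
  mem _ := Iff.rfl
  ev m hm v := by
    rw [Z0, sum_image fun i _ j _ c => by simpa using c]
    obtain ⟨k, rfl⟩ : ∃ k, m = k + 1 := ⟨m - 1, by omega⟩
    simp only [G0, inc_mk]
    rw [sum_add_distrib, sum_range_succ', sum_range_succ, Nat.mod_self,
      sum_congr (s₁ := range k) (f := fun i => if (Sum.inr (k + 1, (i + 1) % (k + 1)) :
        Bool ⊕ ℕ × ℕ) = v then (1 : ZMod 2) else 0) rfl
        fun i hi => by rw [Nat.mod_eq_of_lt (by have := mem_range.1 hi; omega)]]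
    exact two _
  card m _ := by rw [Z0, card_image_of_injOn fun i _ j _ c => by simpa using c, card_range]
  disj m _ e h1 h2 := by
    obtain ⟨i, -, rfl⟩ := mem_Z0.1 h1
    obtain ⟨j, -, c⟩ := mem_X0.1 h2
    cases c
  sep m hm F hF hC := by
    have key : ∀ i, i + 1 < m → ((Sum.inr (m, i + 1) : G0.E) ∈ F ↔ Sum.inr (m, i) ∈ F) := by
      intro i hi
      have a : ∀ x ∈ F, inc (Sum.inr (m, i + 1)) (G0.ends x) =
          (if x = Sum.inr (m, i + 1) then 1 else 0) + (if x = Sum.inr (m, i) then 1 else 0) := by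
        intro x hx
        rcases hC x hx with c | ⟨k, -, c⟩
        · obtain ⟨j, -, rfl⟩ := mem_X0.1 c
          simp [G0, inc_mk]
        · obtain ⟨j, hj, rfl⟩ := mem_Z0.1 c
          have : ((Sum.inr (k, (j + 1) % k) : Bool ⊕ ℕ × ℕ) = Sum.inr (m, i + 1)) ↔
              ((Sum.inr (k, j) : ℕ ⊕ ℕ × ℕ) = Sum.inr (m, i)) := by
            simp only [Sum.inr.injEq, Prod.mk.injEq]
            refine and_congr_right ?_
            rintro rfl
            rcases (show j + 1 ≤ k from hj).eq_or_lt with c | c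
            · rw [c, Nat.mod_self]; omega
            · rw [Nat.mod_eq_of_lt c]; omega
          simp only [G0, inc_mk, this, Sum.inr.injEq]
      have b := hF (Sum.inr (m, i + 1))
      rw [sum_congr rfl a, sum_add_distrib, sum_ite_eq', sum_ite_eq'] at b
      by_cases c1 : (Sum.inr (m, i + 1) : G0.E) ∈ F <;>
        by_cases c2 : (Sum.inr (m, i) : G0.E) ∈ F <;> simp_all
    have all : ∀ i < m, ((Sum.inr (m, i) : G0.E) ∈ F ↔ Sum.inr (m, 0) ∈ F) := fun i hi => by
      induction i with
      | zero => rfl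
      | succ i ih => exact (key i hi).trans (ih (by omega))
    by_cases c : (Sum.inr (m, 0) : G0.E) ∈ F
    · refine Or.inl fun e he => ?_
      obtain ⟨i, hi, rfl⟩ := mem_Z0.1 he
      exact (all i hi).2 c
    · refine Or.inr fun e he h => ?_
      obtain ⟨i, hi, rfl⟩ := mem_Z0.1 he
      exact c ((all i hi).1 h)
  br e he := by
    obtain ⟨i, hi, rfl⟩ := mem_X0.1 he
    obtain ⟨j, h1, h2⟩ : ∃ j ≤ N, i ≠ j := by
      by_cases c : i = 0
      exacts [⟨1, hN, by omega⟩, ⟨0, by omega, c⟩]
    refine ⟨_, fun x hx => ?_, ev_pair h2, mem_insert_self _ _⟩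
    rw [mem_insert, mem_singleton] at hx
    rcases hx with rfl | rfl
    exacts [he, mem_X0.2 ⟨_, h1, rfl⟩]
  num := cnt_X0 N

lemma inv0 (N : ℕ) : Inv (Ev G0) (C0 N) N := by
  refine ⟨Sum.inl 0, (range N).image fun j => {Sum.inl 0, Sum.inl (j + 1)}, ?_, fun F hF => ?_⟩
  · rw [card_image_of_injOn, card_range]
    intro i _ j _ c
    have : (Sum.inl (i + 1) : G0.E) ∈ ({Sum.inl 0, Sum.inl (j + 1)} : Finset G0.E) := by
      simp only at c; rw [← c]; exact mem_insert_of_mem (mem_singleton_self _)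
    rw [mem_insert, mem_singleton] at this
    rcases this with a | a <;> have := Sum.inl_injective a <;> omega
  · obtain ⟨j, hj, rfl⟩ := mem_image.1 hF
    refine ⟨⟨ev_pair (by omega), fun F' h1 h2 h3 => ?_⟩, mem_insert_self _ _, fun e he => ?_⟩
    · refine eq_of_subset_of_card_le h1 (card_le_two.trans ?_)
      by_contra hc
      obtain ⟨x, rfl⟩ := card_eq_one.1 (show F'.card = 1 by have := h3.card_pos; omega)
      have := h1 (mem_singleton_self x)
      rw [mem_insert, mem_singleton] at this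
      rcases this with rfl | rfl <;> exact not_ev _ h2
    · rw [mem_insert, mem_singleton] at he
      have := mem_range.1 hj
      rcases he with rfl | rfl <;> exact Or.inl (mem_X0.2 ⟨_, by omega, rfl⟩)

/-- There is a generalized matroidal family of graphs without isolated vertices that is closed
under homeomorphism and has infinitely many homeomorphism classes. -/
theorem result : ∃ P : Set Gr, Matroidal P ∧ (∀ G ∈ P, ∀ H, Homeo G H → H ∈ P) ∧
    (∀ G ∈ P, ∀ v : G.V, ∃ e, v ∈ G.ends e) ∧
    Infinite (Quot fun G H : P => Homeo G.1 H.1) := by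
  have g : ∀ N, Good (Ev G0) (C0 (N + 1)) := fun N => ⟨_, _, _, data0 (by omega)⟩
  refine ⟨P, ⟨⟨_, sub_mem (g 0)⟩, fun G => ⟨fun C hC C' hC' h => h.ne
    ((circ_iff.1 hC).c1 (evs G) (circ_iff.1 hC') h.subset), fun C hC C' hC' h e he => ?_⟩⟩,
    fun G hG H ⟨K, h1, h2⟩ => (steps h2).1.1 ((steps h1).1.2 hG), fun G hG => hG.1, ?_⟩
  · obtain ⟨D, h1, h2⟩ := (circ_iff.1 hC).c2 (evs G) (ev0 G) (circ_iff.1 hC') h he.1
    exact ⟨D, circ_iff.2 h1, h2⟩
  · by_contra hc
    rw [not_infinite_iff_finite] at hc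
    let J : (Quot fun G H : P => Homeo G.1 H.1) → Set ℕ := Quot.lift (fun G => I G.1)
      fun G H ⟨K, h1, h2⟩ => (steps h1).2.symm.trans (steps h2).2
    have hb : ∀ q, ∃ B, ∀ k ∈ J q, k ≤ B := by
      rintro ⟨G, hG⟩
      obtain ⟨B, hB⟩ := hG.2.bdd
      exact ⟨B, fun k hk => hB k hk.2⟩
    choose B hB using hb
    obtain ⟨M, hM⟩ := (Set.finite_range B).bddAbove
    have := hB (Quot.mk _ ⟨_, sub_mem (g M)⟩) (M + 1) ⟨by omega,
      ((tr_emb (sub_emb G0 _)).inv (by omega)).2 (Subtype.range_val.symm ▸ inv0 (M + 1))⟩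
    have := hM ⟨Quot.mk _ ⟨_, sub_mem (g M)⟩, rfl⟩
    omega

end Pool.Agent.Results.MP_221c76_co.Family
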